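import Pool.Agent.helper60.DB.SpecM

set_option autoImplicit false

namespace Pool.Agent.helper60.DB

open Polynomial

theorem MP_alg {S : Type*} [CommRing S] [IsDomain S] (a b T g1 u1 g2 u2 g3 g4 : S)
    (c1 : u1 ^ 2 = 1 + a * (T * g1 ^ 2) + b * (T * g1 ^ 2) ^ 2)
    (c2 : u2 ^ 2 = 1 + a * (T * g2 ^ 2) + b * (T * g2 ^ 2) ^ 2)
    (h0 : 1 - b * (T * g1 ^ 2) * (T * g2 ^ 2) ≠ 0)
    (h3 : (1 - b * (T * g1 ^ 2) * (T * g2 ^ 2)) * g3 = g1 * u2 + g2 * u1)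
    (h4 : (1 - b * (T * g1 ^ 2) * (T * g2 ^ 2)) * g4 = g1 * u2 - g2 * u1) :
    (1 - b * (T * g1 ^ 2) * (T * g2 ^ 2)) ^ 2 * ((T * g3 ^ 2) * (T * g4 ^ 2))
      = (T * g1 ^ 2 - T * g2 ^ 2) ^ 2 ∧
    (1 - b * (T * g1 ^ 2) * (T * g2 ^ 2)) ^ 2 * (T * g3 ^ 2 + T * g4 ^ 2)
      = 2 * ((T * g1 ^ 2 + T * g2 ^ 2) * (1 + b * (T * g1 ^ 2) * (T * g2 ^ 2))
        + 2 * a * (T * g1 ^ 2) * (T * g2 ^ 2)) := by
  constructor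
  · have h5 : T * ((1 - b * (T * g1 ^ 2) * (T * g2 ^ 2)) * g3) *
        ((1 - b * (T * g1 ^ 2) * (T * g2 ^ 2)) * g4) =
        (T * g1 ^ 2 - T * g2 ^ 2) * (1 - b * (T * g1 ^ 2) * (T * g2 ^ 2)) := by
      rw [h3, h4]
      linear_combination T * g1 ^ 2 * c2 - T * g2 ^ 2 * c1
    apply mul_left_cancel₀ (pow_ne_zero 2 h0)
    calc (1 - b * (T * g1 ^ 2) * (T * g2 ^ 2)) ^ 2 *
          ((1 - b * (T * g1 ^ 2) * (T * g2 ^ 2)) ^ 2 * ((T * g3 ^ 2) * (T * g4 ^ 2)))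
        = (T * ((1 - b * (T * g1 ^ 2) * (T * g2 ^ 2)) * g3) *
          ((1 - b * (T * g1 ^ 2) * (T * g2 ^ 2)) * g4)) ^ 2 := by ring
      _ = _ := by rw [h5]; ring
  · calc (1 - b * (T * g1 ^ 2) * (T * g2 ^ 2)) ^ 2 * (T * g3 ^ 2 + T * g4 ^ 2)
        = T * (((1 - b * (T * g1 ^ 2) * (T * g2 ^ 2)) * g3) ^ 2 +
          ((1 - b * (T * g1 ^ 2) * (T * g2 ^ 2)) * g4) ^ 2) := by ring
      _ = _ := by
        rw [h3, h4]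
        linear_combination 2 * T * g1 ^ 2 * c2 + 2 * T * g2 ^ 2 * c1

theorem MP (hM1 : M1_stmt) (hMA : MA_stmt) (hMU : MU_stmt) : MP_stmt := by
  intro R _ _ _ A' B' α1 α2 y g1 u1 g2 u2 g3 u3 g4 u4 hy h1 h2 h3 h4
  have h2n : Ml A' B' y (-α2) (-g2) u2 := (hM1 R A' B' α2 y g2 u2).2.2 h2
  obtain ⟨g3', u3', h5, h6, -⟩ := hMA R A' B' α1 α2 y g1 u1 g2 u2 h1 h2
  obtain ⟨g4', u4', h7, h8, -⟩ := hMA R A' B' α1 (-α2) y g1 u1 (-g2) u2 h1 h2n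
  rw [← sub_eq_add_neg] at h7
  have h9 := (hMU R A' B' _ y g3 u3 g3' u3' hy h3 h5).1
  have h10 := (hMU R A' B' _ y g4 u4 g4' u4' hy h4 h7).1
  rw [← h9] at h6
  rw [← h10, neg_sq, neg_mul, ← sub_eq_add_neg] at h8
  refine MP_alg _ _ _ g1 u1 g2 u2 g3 g4 h1.cur h2.cur ?_ h6 h8
  intro h0
  have h11 := congrArg PowerSeries.constantCoeff h0
  simp at h11

end Pool.Agent.helper60.DB
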